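import Mathlib
import Pool.Agent.helper95.Defs
import Pool.Agent.helper95.Tow.Vc

set_option autoImplicit false

/-!
# Module A7: the Tate-Shafarevich group under a change of variables
-/

open scoped Classical

namespace Pool.Agent.helper30.T3P

open NumberField WeierstrassCurve WeierstrassCurve.Affine IsDedekindDomain Pool.Agent.helper95

/-- identification of the points of equal curves -/
noncomputable def castPt {F : Type*} [Field F] {W W' : WeierstrassCurve F} (h : W = W') :
    W.toAffine.Point →+ W'.toAffine.Point := h ▸ AddMonoidHom.id _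

lemma castPt_zero {F : Type*} [Field F] {W W' : WeierstrassCurve F} (h : W = W') :
    castPt h 0 = 0 := map_zero _

lemma castPt_some {F : Type*} [Field F] {W W' : WeierstrassCurve F} (h : W = W') {x y : F}
    (hn : W.toAffine.Nonsingular x y) :
    castPt h (.some x y hn) = .some x y (h ▸ hn) := by
  subst h; rfl

lemma castPt_bijective {F : Type*} [Field F] {W W' : WeierstrassCurve F} (h : W = W') :
    Function.Bijective (castPt h) := by
  subst h; exact Function.bijective_id

section field

variable {K : Type*} [Field K] (V : WeierstrassCurve K) (D : VariableChange K)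
variable (F : Type*) [Field F] [Algebra K F]

lemma bc_eq : (D • V).baseChange F = (D.map (algebraMap K F)) • (V.baseChange F) :=
  (map_variableChange (W := V) (C := D) (φ := algebraMap K F)).symm

/-- the isomorphism on the points over an extension -/
noncomputable def vcF : ((D • V).baseChange F).toAffine.Point →+ (V.baseChange F).toAffine.Point :=
  (Tow.Vc.pt (V.baseChange F) (D.map (algebraMap K F))).comp (castPt (bc_eq V D F))

lemma vcF_zero : vcF V D F 0 = 0 := map_zero _

lemma vcF_some {x y : F} (hn : ((D • V).baseChange F).toAffine.Nonsingular x y) :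
    ∃ h', vcF V D F (.some x y hn) =
      .some (algebraMap K F D.u ^ 2 * x + algebraMap K F D.r)
        (algebraMap K F D.u ^ 3 * y + algebraMap K F D.u ^ 2 * algebraMap K F D.s * x +
          algebraMap K F D.t) h' := by
  refine ⟨?_, ?_⟩
  · have h1 : (D.map (algebraMap K F) • (V.baseChange F)).toAffine.Nonsingular x y :=
      bc_eq V D F ▸ hn
    exact (Tow.Vc.ns_iff (V.baseChange F) (D.map (algebraMap K F)) x y).1 h1
  · rw [vcF, AddMonoidHom.comp_apply, castPt_some]
    rfl

lemma vcF_bijective : Function.Bijective (vcF V D F) :=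
  Function.Bijective.comp (g := Tow.Vc.pt (V.baseChange F) (D.map (algebraMap K F)))
    ⟨Tow.Vc.pt_injective _ _, Tow.Vc.pt_surjective _ _⟩ (castPt_bijective (bc_eq V D F))

end field

/-- naturality -/
lemma vcF_map {K : Type*} [Field K] (V : WeierstrassCurve K) (D : VariableChange K)
    {F F' : Type*} [Field F] [Algebra K F] [Field F'] [Algebra K F'] {S : Type*}
    [CommRing S] [Algebra K S] [Algebra S F] [Algebra S F'] [IsScalarTower K S F]
    [IsScalarTower K S F'] (j : F →ₐ[S] F') (P : ((D • V).baseChange F).toAffine.Point) :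
    vcF V D F' (Point.map (W' := D • V) j P) = Point.map (W' := V) j (vcF V D F P) := by
  rcases P with _ | ⟨x, y, h⟩
  · exact (vcF_zero V D F').trans ((congrArg _ (vcF_zero V D F)).trans (map_zero _)).symm
  · have hj : ∀ a : K, j (algebraMap K F a) = algebraMap K F' a := fun a => by
      rw [IsScalarTower.algebraMap_apply K S F, IsScalarTower.algebraMap_apply K S F', j.commutes]
    have e1 := (vcF_some V D F h).choose_spec
    have e2 : ∀ hn : ((D • V).baseChange F').toAffine.Nonsingular (j x) (j y),
        vcF V D F' (.some (j x) (j y) hn) = Point.map (W' := V) j (vcF V D F (.some x y h)) := by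
      intro hn
      rw [e1, (vcF_some V D F' hn).choose_spec, Point.map_some]
      refine Tow.Vc.some_congr _ _ ?_ ?_
      · rw [map_add, map_mul, map_pow, hj, hj]
      · rw [map_add, map_add, map_mul, map_mul, map_mul, map_pow, map_pow, hj, hj, hj]
    exact e2 _

section

variable {K : Type} [Field K] [NumberField K]

theorem sha_smul' (V : WeierstrassCurve K) (D : VariableChange K) (p : ℕ)
    (h : ShaPrimaryTrivial V p) : ShaPrimaryTrivial (D • V) p := by
  intro c hc m hm
  let Kb := AlgebraicClosure K
  have hloc : ∀ (L : Type) [Field L] [Algebra K L], LocallyTrivial (D • V) c L →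
      LocallyTrivial V (fun σ => vcF V D Kb (c σ)) L := by
    intro L _ _ hL j
    obtain ⟨Q, hQ⟩ := hL j
    refine ⟨vcF V D (AlgebraicClosure L) Q, fun s t hst => ?_⟩
    have h1 := hQ s t hst
    have h2 := congrArg (vcF V D (AlgebraicClosure L)) h1
    rw [map_sub] at h2
    have h3 : vcF V D (AlgebraicClosure L) (embMap (D • V) L j (c t)) =
        embMap V L j (vcF V D Kb (c t)) := vcF_map V D j (c t)
    have h4 : vcF V D (AlgebraicClosure L) (galAct (D • V) L s Q) =
        galAct V L s (vcF V D (AlgebraicClosure L) Q) :=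
      vcF_map V D (AlgEquiv.toAlgHom s) Q
    rw [h3, h4] at h2
    exact h2
  have hact : ∀ (σ : Kb ≃ₐ[K] Kb) (P : ((D • V).baseChange Kb).toAffine.Point),
      vcF V D Kb (galAct (D • V) K σ P) = galAct V K σ (vcF V D Kb P) :=
    fun σ P => vcF_map V D (AlgEquiv.toAlgHom σ) P
  have hc' : IsShaCocycle V (fun σ => vcF V D Kb (c σ)) := by
    refine ⟨⟨?_, ?_⟩, ?_, ?_⟩
    · exact hc.cocycle.cont.comp (vcF V D Kb)
    · intro σ τ
      change vcF V D Kb (c (σ * τ)) = vcF V D Kb (c σ) + _
      rw [hc.cocycle.cocycle, map_add]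
      congr 1
      exact hact σ (c τ)
    · intro v
      exact hloc _ (hc.finite v)
    · intro v
      exact hloc _ (hc.infinite v)
  have hm' : IsCoboundary (galAct V K) (p ^ m • fun σ => vcF V D Kb (c σ)) := by
    obtain ⟨P, hP⟩ := hm
    refine ⟨vcF V D Kb P, fun σ => ?_⟩
    have h1 := hP σ
    have h2 := congrArg (vcF V D Kb) h1
    rw [map_sub] at h2
    have h3 : vcF V D Kb ((p ^ m • c) σ) = (p ^ m • fun σ => vcF V D Kb (c σ)) σ := by
      rw [Pi.smul_apply, Pi.smul_apply, map_nsmul]
    rw [h3] at h2
    rw [h2]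
    congr 1
    exact hact σ P
  obtain ⟨Q, hQ⟩ := h _ hc' m hm'
  obtain ⟨P, rfl⟩ := (vcF_bijective V D Kb).2 Q
  refine ⟨P, fun σ => (vcF_bijective V D Kb).1 ?_⟩
  rw [map_sub]
  have h1 := hQ σ
  rw [← hact σ P] at h1
  exact h1

/-- the Tate-Shafarevich group of an isomorphic model -/
theorem sha_smul {K : Type} [Field K] [NumberField K] (W : WeierstrassCurve K)
    (C : VariableChange K) (p : ℕ) (h : ShaPrimaryTrivial (C • W) p) :
    ShaPrimaryTrivial W p := by
  have h1 := sha_smul' (C • W) C⁻¹ p h
  rwa [inv_smul_smul] at h1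

end

end Pool.Agent.helper30.T3P
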